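import Pool.Agent.ATW.Stmts
import Pool.Agent.Helper94_PP.LemQ

/-!
# Squad ATW, row LN1: blocks of inertial index one have one modular character
-/

set_option autoImplicit false

open scoped BigOperators

noncomputable section

namespace Pool.Agent.PP.TW.H9

open Pool.Agent.Helper51_AWC Pool.Agent.Helper79_WRA Pool.Agent.PP Pool.Agent.PP.KF
open Pool.Agent.PP.K9 Pool.Agent.PP.K9.H97 Pool.Agent.PP.H75 Pool.Agent.PP.T3 Pool.Agent.PP.T2
open Pool.Agent.PP.T5 Pool.Agent.PP.TB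
open Pool.Agent.PP.T8 (rs pw fv rd Ip Rv vv Dat Fr)

attribute [local instance] Ideal.Quotient.field

/-- the expansion of a function in the span of the characters of a block -/
theorem expand {M : Ideal (integralClosure ℤ ℂ)} [M.IsMaximal] {H : Type} [Group H] [Fintype H]
    (b : H → FF M) (S : Finset (H → ℂ)) (hS : ∀ κ, κ ∈ S ↔ κ ∈ IrrE M b) (f : H → ℂ)
    (hf : f ∈ Submodule.span ℂ (IrrE M b)) (x : H) :
    f x = ∑ κ ∈ S, ((Fintype.card H : ℂ)⁻¹ * ∑ y, f y * κ y⁻¹) * κ x := by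
  classical
  have hc : (Fintype.card H : ℂ) ≠ 0 := by exact_mod_cast Fintype.card_ne_zero
  induction hf using Submodule.span_induction with
  | mem f hf =>
    rw [Finset.sum_eq_single f]
    · rw [irr_orth_self hf.1, inv_mul_cancel₀ hc, one_mul]
    · intro κ hκ hne
      rw [irr_orth_ne hf.1 ((hS κ).1 hκ).1 (Ne.symm hne), mul_zero, zero_mul]
    · intro h
      exact absurd ((hS f).2 hf) h
  | zero => simp
  | add f g _ _ h1 h2 =>
    rw [Pi.add_apply, h1, h2, ← Finset.sum_add_distrib]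
    refine Finset.sum_congr rfl fun κ _ => ?_
    have : ∑ y, (f + g) y * κ y⁻¹ = ∑ y, f y * κ y⁻¹ + ∑ y, g y * κ y⁻¹ := by
      rw [← Finset.sum_add_distrib]
      exact Finset.sum_congr rfl fun y _ => by rw [Pi.add_apply, add_mul]
    rw [this]
    ring
  | smul a f _ h1 =>
    rw [Pi.smul_apply, smul_eq_mul, h1, Finset.mul_sum]
    refine Finset.sum_congr rfl fun κ _ => ?_
    have : ∑ y, (a • f) y * κ y⁻¹ = a * ∑ y, f y * κ y⁻¹ := by
      rw [Finset.mul_sum]
      exact Finset.sum_congr rfl fun y _ => by rw [Pi.smul_apply, smul_eq_mul, mul_assoc]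
    rw [this]
    ring

theorem ln1 : T3.NilStmt → T8.Rg1Stmt → T3.LrkStmt → K9.RotStmt → Ln1Stmt := by
  classical
  intro hnil hrg1 hlrk hrot ℓ _ M _ hM H _ _ b V γ hb hix
  have hFt : Fintype H := Fintype.ofFinite H
  have hid : IsIdem b := hb.blk.1
  obtain ⟨-, hcard, -⟩ := hnil ℓ M hM H b V γ hb hix
  have hfin : (IrrE M b).Finite := (irr_finite' (G := H)).subset fun χ h => h.1
  set S : Finset (H → ℂ) := hfin.toFinset with hS
  have hSm : ∀ κ, κ ∈ S ↔ κ ∈ IrrE M b := fun κ => hfin.mem_toFinset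
  have hScard : S.card = Nat.card V := by
    rw [← hcard, Set.ncard_eq_toFinset_card _ hfin]
  have hVpos : 0 < Nat.card V := Nat.card_pos
  obtain ⟨κ₀, hκS⟩ : S.Nonempty := by
    rw [← Finset.card_pos, hScard]
    exact hVpos
  have hκ₀ : κ₀ ∈ IrrE M b := (hSm κ₀).1 hκS
  have hag : ∀ κ ∈ S, ∀ s, Reg ℓ s → κ s = κ₀ s := fun κ hκ s hs =>
    hrg1 ℓ M hM H b V γ hb hix κ ((hSm κ).1 hκ) κ₀ hκ₀ s hs
  have hcc : (Nat.card H : ℂ) = Fintype.card H := by rw [Nat.card_eq_fintype_card]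
  set t : ℂ := (Fintype.card H : ℂ)⁻¹ *
    ∑ s ∈ Finset.univ.filter (fun s : H => Reg ℓ s), κ₀ s * starRingEnd ℂ (κ₀ s) with ht
  -- the number of modular characters
  have hln : (ln b : ℂ) = Nat.card V * t := by
    rw [hlrk ℓ M hM H b hid, hcc, ht]
    have h1 : ∑ᶠ (s : H) (_ : Reg ℓ s), ∑ᶠ χ ∈ IrrE M b, χ s * starRingEnd ℂ (χ s) =
        ∑ s ∈ Finset.univ.filter (fun s : H => Reg ℓ s),
          (Nat.card V : ℂ) * (κ₀ s * starRingEnd ℂ (κ₀ s)) := by
      rw [finsum_eq_sum_of_fintype, Finset.sum_filter]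
      refine Finset.sum_congr rfl fun s _ => ?_
      by_cases hs : Reg ℓ s
      · rw [if_pos hs, finsum_eq_if, if_pos hs]
        have h2 : ∑ᶠ χ ∈ IrrE M b, χ s * starRingEnd ℂ (χ s) =
            ∑ χ ∈ S, χ s * starRingEnd ℂ (χ s) := by
          rw [hS, finsum_mem_eq_finite_toFinset_sum _ hfin]
        rw [h2, Finset.sum_congr rfl fun χ hχ => by rw [hag χ hχ s hs], Finset.sum_const,
          hScard, nsmul_eq_mul]
      · rw [if_neg hs, finsum_eq_if, if_neg hs]
    rw [h1, ← Finset.mul_sum]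
    ring
  -- the restriction of `κ₀` to the regular elements
  set g : H → ℂ := fun x => if Reg ℓ x then κ₀ x else 0 with hg
  have hgs : g ∈ Submodule.span ℂ (IrrE M b) := by
    have := (hrot ℓ M hM H b hid).1 κ₀ (Submodule.subset_span hκ₀)
    refine (congrArg (· ∈ Submodule.span ℂ (IrrE M b)) ?_).mp this
    funext x
    by_cases hx : Reg ℓ x
    · simp [hg, hx]
    · simp [hg, hx]
  have hcoef : ∀ κ ∈ S, (Fintype.card H : ℂ)⁻¹ * ∑ y, g y * κ y⁻¹ = t := by
    intro κ hκ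
    rw [ht, Finset.sum_filter]
    congr 1
    refine Finset.sum_congr rfl fun y _ => ?_
    by_cases hy : Reg ℓ y
    · rw [if_pos hy, hg]
      simp only [if_pos hy]
      rw [← H94.irr_star ((hSm κ).1 hκ).1, hag κ hκ y hy]
    · rw [if_neg hy, hg]
      simp only [if_neg hy, zero_mul]
  have hreg1 : Reg ℓ (1 : H) := by
    unfold Reg
    rw [orderOf_one]
    exact Nat.coprime_one_left ℓ
  have h1 := expand b S hSm g hgs 1
  have h2 : g 1 = κ₀ 1 := by
    rw [hg]
    simp only [if_pos hreg1]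
  rw [h2, Finset.sum_congr rfl fun κ hκ => by rw [hcoef κ hκ, hag κ hκ 1 hreg1],
    Finset.sum_const, hScard, nsmul_eq_mul] at h1
  have hκ1 : κ₀ 1 ≠ 0 := irr_one_ne hκ₀.1
  have h3 : (Nat.card V : ℂ) * t = 1 := by
    have : ((Nat.card V : ℂ) * t) * κ₀ 1 = 1 * κ₀ 1 := by
      rw [one_mul]
      conv_rhs => rw [h1]
      ring
    exact mul_right_cancel₀ hκ1 this
  rw [h3] at hln
  exact_mod_cast hln

end Pool.Agent.PP.TW.H9
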